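import Pool.Agent.V11287.BG3

/-!
# MP_f30c32_an

For every `ν > 0` the Turan ratio `Φ_ν = Δ_ν / J_ν²` has exactly one critical point between any two
consecutive positive zeros of `J_ν`, and the minima `β_{ν,n}` increase strictly.
-/

open Filter Topology Set

namespace Pool.Agent.Results.MP_f30c32_an.TuranMinima

noncomputable section

/-- `J_ν(x) = ∑ (-1)^m / (m! Γ(m+ν+1)) (x/2)^{2m+ν}` for real `x > 0`. -/
def besselJ (ν : ℝ) (x : ℝ) : ℝ :=
  ∑' m : ℕ, (-1) ^ m / (m.factorial * Real.Gamma (m + ν + 1)) * (x / 2) ^ (2 * m + ν)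

/-- `Δ_ν(x) = J_ν(x)² - J_{ν-1}(x) J_{ν+1}(x)`. -/
def Delta (ν x : ℝ) : ℝ := besselJ ν x ^ 2 - besselJ (ν - 1) x * besselJ (ν + 1) x

/-- `Φ_ν = Δ_ν / J_ν²`. -/
def Phi (ν x : ℝ) : ℝ := Delta ν x / besselJ ν x ^ 2

lemma besselJ_eq : besselJ = Pool.Agent.V11287.BG.besselJ := rfl

lemma Phi_eq : Phi = Pool.Agent.V11287.BG.turan := rfl

open Pool.Agent.V11287.BG in
/-- the next zero -/
lemma next_zero (ν : ℝ) (hν : 0 < ν) (c : ℝ) (hc : 0 ≤ c) (h : c = 0 ∨ besselJ ν c = 0) :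
    ∃ d, c < d ∧ besselJ ν d = 0 ∧ ∀ x ∈ Ioo c d, besselJ ν x ≠ 0 := by
  set Z : Set ℝ := {x | c < x ∧ besselJ ν x = 0} with hZ
  obtain ⟨R, hR, hR0, hRJ⟩ := zeros_unbounded ν hν c
  have hne : Z.Nonempty := ⟨R, hR, hRJ⟩
  have hbdd : BddBelow Z := ⟨c, fun x hx => hx.1.le⟩
  -- no zeros just to the right of `c`
  have hgap : ∃ δ, 0 < δ ∧ ∀ x, c < x → x < c + δ → besselJ ν x ≠ 0 := by
    rcases h with h | h
    · refine ⟨1, one_pos, fun x hx hx1 => ?_⟩
      rw [h] at hx hx1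
      exact (J_pos ν hν x hx (by nlinarith)).ne'
    · by_cases hc0 : c = 0
      · refine ⟨1, one_pos, fun x hx hx1 => ?_⟩
        rw [hc0] at hx hx1
        exact (J_pos ν hν x hx (by nlinarith)).ne'
      · have hcpos : 0 < c := lt_of_le_of_ne hc (Ne.symm hc0)
        have hd := hasDerivAt_J ν (by linarith) c hcpos
        have hK := K_ne ν hν c hcpos h
        have h1 := hd.eventually_ne (c := 0) (div_ne_zero hK hcpos.ne')
        rw [eventually_nhdsWithin_iff, Metric.eventually_nhds_iff] at h1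
        obtain ⟨δ, hδ, hball⟩ := h1
        refine ⟨δ, hδ, fun x hx hx1 => ?_⟩
        apply hball
        · rw [Real.dist_eq, abs_of_pos (by linarith)]; linarith
        · exact ne_of_gt hx
  obtain ⟨δ, hδ, hgap⟩ := hgap
  set d := sInf Z with hd
  have hdge : c + δ ≤ d := by
    apply le_csInf hne
    intro x hx
    by_contra hcon
    push Not at hcon
    exact hgap x hx.1 hcon hx.2
  have hcd : c < d := by linarith
  have hd0 : 0 < d := by linarith
  refine ⟨d, hcd, ?_, fun x hx hx0 => ?_⟩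
  · by_contra hJd
    have hcont : ContinuousAt (besselJ ν) d := (hasDerivAt_J ν (by linarith) d hd0).continuousAt
    have h1 := hcont.eventually_ne hJd
    rw [Metric.eventually_nhds_iff] at h1
    obtain ⟨η, hη, hball⟩ := h1
    have h2 : d + η ≤ d := by
      apply le_csInf hne
      intro x hx
      have hdx : d ≤ x := csInf_le hbdd hx
      by_contra hcon
      push Not at hcon
      apply hball (y := x) _ hx.2
      rw [Real.dist_eq, abs_of_nonneg (by linarith)]
      linarith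
    linarith
  · have := csInf_le hbdd (show x ∈ Z from ⟨hx.1, hx0⟩)
    linarith [hx.2]

open Pool.Agent.V11287.BG in
/-- enumeration of the positive zeros -/
lemma enumeration (ν : ℝ) (hν : 0 < ν) : ∃ j : ℕ → ℝ, j 0 = 0 ∧ StrictMono j ∧
    (∀ x, 0 < x → (besselJ ν x = 0 ↔ ∃ k, 1 ≤ k ∧ j k = x)) ∧
    ∀ k, ∀ x ∈ Ioo (j k) (j (k + 1)), besselJ ν x ≠ 0 := by
  choose! nx hnx1 hnx2 hnx3 using next_zero ν hν
  set j : ℕ → ℝ := fun k => nx^[k] 0 with hj
  have hj0 : j 0 = 0 := rfl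
  have hjs : ∀ k, j (k + 1) = nx (j k) := fun k => Function.iterate_succ_apply' nx k 0
  have hjk : ∀ k, 0 ≤ j k ∧ (j k = 0 ∨ besselJ ν (j k) = 0) := by
    intro k
    induction k with
    | zero => exact ⟨le_rfl, Or.inl rfl⟩
    | succ k ih =>
      rw [hjs]
      exact ⟨ih.1.trans (hnx1 _ ih.1 ih.2).le, Or.inr (hnx2 _ ih.1 ih.2)⟩
  have hmono : StrictMono j := strictMono_nat_of_lt_succ fun k => by
    rw [hjs]; exact hnx1 _ (hjk k).1 (hjk k).2
  have hpos : ∀ k, 1 ≤ k → 0 < j k := fun k hk => by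
    rw [← hj0]; exact hmono hk
  have hgap : ∀ k, ∀ x ∈ Ioo (j k) (j (k + 1)), besselJ ν x ≠ 0 := by
    intro k x hx
    rw [hjs] at hx
    exact hnx3 _ (hjk k).1 (hjk k).2 x hx
  have hzero : ∀ k, 1 ≤ k → besselJ ν (j k) = 0 := by
    intro k hk
    rcases (hjk k).2 with h | h
    · exact absurd h (hpos k hk).ne'
    · exact h
  refine ⟨j, hj0, hmono, fun x hx => ⟨fun hx0 => ?_, ?_⟩, hgap⟩
  · by_contra hcon
    push Not at hcon
    have hlt : ∀ k, j k < x := by
      intro k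
      induction k with
      | zero => rw [hj0]; exact hx
      | succ k ih =>
        rcases lt_trichotomy (j (k + 1)) x with h | h | h
        · exact h
        · exact absurd h (hcon (k + 1) (by omega))
        · exact absurd hx0 (hgap k x ⟨ih, h⟩)
    -- the sequence converges
    have hbdd : BddAbove (range j) := ⟨x, by rintro _ ⟨k, rfl⟩; exact (hlt k).le⟩
    have hlim := tendsto_atTop_ciSup hmono.monotone hbdd
    set L := ⨆ k, j k with hL
    have hjL : ∀ k, j k < L := fun k => lt_of_lt_of_le (hmono (Nat.lt_succ_self k)) (le_ciSup hbdd _)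
    have hL0 : 0 < L := lt_of_le_of_lt (hjk 0).1 (hjL 0)
    have hd := hasDerivAt_J ν (by linarith) L hL0
    have hJL : besselJ ν L = 0 := by
      have h1 := hd.continuousAt.tendsto.comp hlim
      have h2 : Tendsto (besselJ ν ∘ j) atTop (𝓝 0) := by
        apply tendsto_const_nhds.congr'
        filter_upwards [eventually_ge_atTop 1] with k hk
        exact (hzero k hk).symm
      exact tendsto_nhds_unique h1 h2
    have hK := K_ne ν hν L hL0 hJL
    have h1 := hd.eventually_ne (c := 0) (div_ne_zero hK hL0.ne')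
    have h2 : Tendsto j atTop (𝓝[≠] L) := tendsto_nhdsWithin_iff.mpr
      ⟨hlim, Eventually.of_forall fun k => (hjL k).ne⟩
    have h3 := h2.eventually h1
    obtain ⟨k, hk1, hk2⟩ := (h3.and (eventually_ge_atTop 1)).exists
    exact hk1 (hzero k hk2)
  · rintro ⟨k, hk, rfl⟩
    exact hzero k hk

/-- **Main result.**  Let `ν > 0`.  The positive zeros of `J_ν` form an infinite increasing sequence
`j 1 < j 2 < ⋯` (put `j 0 = 0`), and
(a) for every `n ≥ 1` the function `Φ_ν` is differentiable on `(j n, j (n+1))` and its derivative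
vanishes at exactly one point `α n` of this interval;
(b) the sequence `β 0 = 1/(ν+1)`, `β n = Φ_ν (α n)` (`n ≥ 1`) is strictly increasing. -/
theorem result (ν : ℝ) (hν : 0 < ν) :
    ∃ j α : ℕ → ℝ, j 0 = 0 ∧ StrictMono j ∧
      (∀ x, 0 < x → (besselJ ν x = 0 ↔ ∃ k, 1 ≤ k ∧ j k = x)) ∧
      (∀ n, 1 ≤ n → α n ∈ Ioo (j n) (j (n + 1)) ∧ ∀ x ∈ Ioo (j n) (j (n + 1)),
        DifferentiableAt ℝ (Phi ν) x ∧ (deriv (Phi ν) x = 0 ↔ x = α n)) ∧
      StrictMono (fun n : ℕ => if n = 0 then 1 / (ν + 1) else Phi ν (α n)) := by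
  obtain ⟨j, hj0, hmono, hz, hgap⟩ := enumeration ν hν
  have hpos : ∀ k, 1 ≤ k → 0 < j k := fun k hk => by
    rw [← hj0]; exact hmono hk
  have hzero : ∀ k, 1 ≤ k → besselJ ν (j k) = 0 := fun k hk =>
    (hz (j k) (hpos k hk)).mpr ⟨k, hk, rfl⟩
  have hcrit : ∀ n, 1 ≤ n → ∃ c ∈ Ioo (j n) (j (n + 1)),
      (0 < Pool.Agent.V11287.BG.yf ν c ∧ Pool.Agent.V11287.BG.yf ν c < ν ∧
      c ^ 2 * Pool.Agent.V11287.BG.yf ν c = (1 + Pool.Agent.V11287.BG.yf ν c) *
        (ν ^ 2 - Pool.Agent.V11287.BG.yf ν c ^ 2)) ∧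
      ∀ x ∈ Ioo (j n) (j (n + 1)), (Pool.Agent.V11287.BG.cub ν x = 0 ↔ x = c) := fun n hn =>
    Pool.Agent.V11287.BG.crit_exists_unique ν hν (j n) (j (n + 1)) (hpos n hn)
      (hmono (Nat.lt_succ_self n)) (hzero n hn) (hzero (n + 1) (by omega)) (hgap n)
  choose! α hα1 hα2 hα3 using hcrit
  have hαpos : ∀ n, 1 ≤ n → 0 < α n := fun n hn => lt_trans (hpos n hn) (hα1 n hn).1
  have hαJ : ∀ n, 1 ≤ n → besselJ ν (α n) ≠ 0 := fun n hn => hgap n _ (hα1 n hn)
  have hval : ∀ n, 1 ≤ n → Phi ν (α n) = 1 / (1 + Pool.Agent.V11287.BG.yf ν (α n)) := by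
    intro n hn
    obtain ⟨h1, h2, h3⟩ := hα2 n hn
    exact Pool.Agent.V11287.BG.turan_crit ν hν (α n) (hαpos n hn) (hαJ n hn) h1 h2 h3
  refine ⟨j, α, hj0, hmono, hz, fun n hn => ⟨hα1 n hn, fun x hx => ?_⟩, ?_⟩
  · have hx0 : 0 < x := lt_trans (hpos n hn) hx.1
    have hd : HasDerivAt (Phi ν) (-(2 / x ^ 3) * Pool.Agent.V11287.BG.cub ν x) x :=
      Pool.Agent.V11287.BG.hasDerivAt_turan ν hν x hx0 (hgap n x hx)
    refine ⟨hd.differentiableAt, ?_⟩
    rw [hd.deriv, ← hα3 n hn x hx]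
    constructor
    · intro h
      rcases mul_eq_zero.mp h with h1 | h1
      · exfalso
        have : 0 < 2 / x ^ 3 := by positivity
        linarith
      · exact h1
    · intro h
      rw [h, mul_zero]
  · apply strictMono_nat_of_lt_succ
    intro n
    rcases Nat.eq_zero_or_pos n with rfl | hn
    · simp only [if_true, zero_add, one_ne_zero, if_false]
      rw [hval 1 le_rfl]
      obtain ⟨h1, h2, h3⟩ := hα2 1 le_rfl
      apply one_div_lt_one_div_of_lt (by linarith)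
      linarith
    · have hn0 : n ≠ 0 := by omega
      simp only [hn0, if_false, Nat.succ_ne_zero, Nat.add_eq_zero_iff, one_ne_zero, and_false]
      rw [hval n hn, hval (n + 1) (by omega)]
      obtain ⟨h1, h2, h3⟩ := hα2 n hn
      obtain ⟨h1', h2', h3'⟩ := hα2 (n + 1) (by omega)
      have hlt : α n < α (n + 1) := lt_trans (hα1 n hn).2 (hα1 (n + 1) (by omega)).1
      have := Pool.Agent.V11287.BG.y_anti (hαpos n hn) hlt h1 h2 h1' h2' h3 h3'
      apply one_div_lt_one_div_of_lt (by linarith)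
      linarith

end

end Pool.Agent.Results.MP_f30c32_an.TuranMinima
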